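import Pool.Agent.helper64.OT.SpecG

/-! # Project OT (MP_f6e9a2_nt), row SMS: the second moment of `DSS` (adapted from `Pool/Agent/helper96/OT/SMD.lean`) -/

set_option autoImplicit false

namespace Pool.Agent.OG

open Finset Pool.Agent.OT Pool.Agent.SPI Pool.Agent.helper85.PG
open scoped Pointwise

section SMS
variable {p : ℕ} [Fact p.Prime]

theorem SMS_prod (f g h : ZMod p → ℝ) :
    ∑ z : (ZMod p × ZMod p) × ZMod p, f z.1.1 * g z.1.2 * h z.2 = (∑ a, f a) * (∑ b, g b) * ∑ c, h c := by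
  have h1 : ∑ x : ZMod p × ZMod p, f x.1 * g x.2 = (∑ a, f a) * ∑ b, g b := by
    rw [Finset.sum_mul_sum]
    exact Fintype.sum_prod_type _
  calc ∑ z : (ZMod p × ZMod p) × ZMod p, f z.1.1 * g z.1.2 * h z.2 =
        ∑ x : ZMod p × ZMod p, ∑ c, f x.1 * g x.2 * h c := Fintype.sum_prod_type _
    _ = (∑ x : ZMod p × ZMod p, f x.1 * g x.2) * ∑ c, h c := (Finset.sum_mul_sum _ _ _ _).symm
    _ = _ := by rw [h1]

/-- the weight of a triple -/
noncomputable def SMS_w (S : Finset (ZMod p)) (z : (ZMod p × ZMod p) × ZMod p) : ℝ := wqS S z.1.1 z.1.2 z.2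

/-- the character of a triple -/
noncomputable def SMS_x (lam : ZMod p) (z : (ZMod p × ZMod p) × ZMod p) : ℝ :=
  ((quadraticChar (ZMod p) (PX z.1.1 z.1.2 z.2 lam) : ℤ) : ℝ)

theorem SMS_abs (lam : ZMod p) (z : (ZMod p × ZMod p) × ZMod p) : |SMS_x lam z| ≤ 1 := by
  unfold SMS_x
  by_cases h : PX z.1.1 z.1.2 z.2 lam = 0
  · rw [h, quadraticChar_zero]
    simp
  · rcases quadraticChar_dichotomy h with h1 | h1
    · rw [h1]; simp
    · rw [h1]; simp

theorem SMS_DS (S : Finset (ZMod p)) (lam : ZMod p) :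
    DSS S lam = (p : ℝ) ^ 2 * ∑ z : (ZMod p × ZMod p) × ZMod p, SMS_w S z * SMS_x lam z := by
  unfold DSS
  congr 1
  have h1 : ∑ z : (ZMod p × ZMod p) × ZMod p, SMS_w S z * SMS_x lam z =
      ∑ x : ZMod p × ZMod p, ∑ c, SMS_w S (x, c) * SMS_x lam (x, c) := Fintype.sum_prod_type _
  have h2 : ∑ x : ZMod p × ZMod p, ∑ c, SMS_w S (x, c) * SMS_x lam (x, c) =
      ∑ a, ∑ b, ∑ c, SMS_w S ((a, b), c) * SMS_x lam ((a, b), c) := Fintype.sum_prod_type _
  rw [h1, h2]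
  rfl

theorem SMS_sq (S : Finset (ZMod p)) : ∑ lam : ZMod p, DSS S lam ^ 2 =
    (p : ℝ) ^ 4 * ∑ z : (ZMod p × ZMod p) × ZMod p, ∑ z' : (ZMod p × ZMod p) × ZMod p,
      SMS_w S z * SMS_w S z' * ∑ lam : ZMod p, SMS_x lam z * SMS_x lam z' := by
  have h1 : ∀ lam : ZMod p, DSS S lam ^ 2 = (p : ℝ) ^ 4 * ∑ z : (ZMod p × ZMod p) × ZMod p,
      ∑ z' : (ZMod p × ZMod p) × ZMod p, SMS_w S z * SMS_w S z' * (SMS_x lam z * SMS_x lam z') := by
    intro lam
    rw [SMS_DS, mul_pow, ← pow_mul, sq (∑ z : (ZMod p × ZMod p) × ZMod p, SMS_w S z * SMS_x lam z), Finset.sum_mul_sum]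
    congr 1
    refine Finset.sum_congr rfl fun z _ => Finset.sum_congr rfl fun z' _ => ?_
    ring
  simp only [h1]
  rw [← Finset.mul_sum, Finset.sum_comm]
  congr 1
  refine Finset.sum_congr rfl fun z _ => ?_
  rw [Finset.sum_comm]
  refine Finset.sum_congr rfl fun z' _ => ?_
  rw [Finset.mul_sum]

theorem SMS_K (z z' : (ZMod p × ZMod p) × ZMod p) : ∑ lam : ZMod p, SMS_x lam z * SMS_x lam z' ≤ p := by
  calc ∑ lam : ZMod p, SMS_x lam z * SMS_x lam z' ≤ ∑ _lam : ZMod p, (1 : ℝ) := by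
        refine Finset.sum_le_sum fun lam _ => ?_
        refine (le_abs_self _).trans ?_
        rw [abs_mul]
        exact mul_le_one₀ (SMS_abs lam z) (abs_nonneg _) (SMS_abs lam z')
    _ = p := by
        rw [Finset.sum_const, Finset.card_univ, ZMod.card, nsmul_eq_mul, mul_one]

variable {S : Finset (ZMod p)} (hS : S.Nonempty) (h0 : ∀ r : ZMod p, 0 ≤ wS S r ∧ wS S r ≤ 1 / (S.card : ℝ)) (h1 : ∑ r : ZMod p, wS S r = 1)

include h0 in
theorem SMS_nonneg (z : (ZMod p × ZMod p) × ZMod p) : 0 ≤ SMS_w S z := by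
  unfold SMS_w wqS
  have e1 := (h0 z.1.1).1
  have e2 := (h0 z.1.2).1
  have e3 := (h0 z.2).1
  have e4 := (h0 (-(z.1.1 + z.1.2 + z.2))).1
  positivity

include h0 h1 in
theorem SMS_total : ∑ z : (ZMod p × ZMod p) × ZMod p, SMS_w S z ≤ 1 / (S.card : ℝ) := by
  calc ∑ z : (ZMod p × ZMod p) × ZMod p, SMS_w S z ≤
        ∑ z : (ZMod p × ZMod p) × ZMod p, wS S z.1.1 * wS S z.1.2 * wS S z.2 * (1 / (S.card : ℝ)) := by
        refine Finset.sum_le_sum fun z _ => ?_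
        unfold SMS_w wqS
        have e1 := (h0 z.1.1).1
        have e2 := (h0 z.1.2).1
        have e3 := (h0 z.2).1
        exact mul_le_mul_of_nonneg_left (h0 _).2 (by positivity)
    _ = 1 / (S.card : ℝ) := by
        rw [← Finset.sum_mul, SMS_prod (wS S) (wS S) (wS S), h1]
        ring

/-- products of four numbers, two of them small -/
theorem SMS_four {a b c d u : ℝ} (ha : 0 ≤ a) (hb : 0 ≤ b) (hc : 0 ≤ c) (_hd : 0 ≤ d)
    (hc' : c ≤ u) (hd' : d ≤ u) : a * b * c * d ≤ u ^ 2 * (a * b) := by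
  have h1 : a * b * c ≤ a * b * u := mul_le_mul_of_nonneg_left hc' (mul_nonneg ha hb)
  have h2 : a * b * c * d ≤ a * b * u * u :=
    mul_le_mul h1 hd' _hd (mul_nonneg (mul_nonneg ha hb) (hc.trans hc'))
  linarith

include h0 h1 in
theorem SMS_deg : ∑ z : (ZMod p × ZMod p) × ZMod p,
    (if z.1.1 * z.1.2 * z.2 * (z.1.1 + z.1.2 + z.2) = 0 then SMS_w S z else 0) ≤ 4 / (S.card : ℝ) ^ 2 := by
  set u : ℝ := 1 / (S.card : ℝ) with hu
  let dl : ZMod p → ℝ := fun a => if a = 0 then 1 else 0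
  have hdl : ∑ a, dl a = 1 := by
    rw [Finset.sum_ite_eq']
    simp
  have hd0 : ∀ a, 0 ≤ dl a := by
    intro a
    change 0 ≤ (if a = 0 then (1 : ℝ) else 0)
    split_ifs <;> norm_num
  have hdz : dl 0 = 1 := if_pos rfl
  have hpt : ∀ z : (ZMod p × ZMod p) × ZMod p,
      (if z.1.1 * z.1.2 * z.2 * (z.1.1 + z.1.2 + z.2) = 0 then SMS_w S z else 0) ≤
        u ^ 2 * (dl z.1.1 * wS S z.1.2 * wS S z.2) + u ^ 2 * (wS S z.1.1 * dl z.1.2 * wS S z.2) +
          u ^ 2 * (wS S z.1.1 * wS S z.1.2 * dl z.2) + u ^ 2 * (wS S z.1.1 * wS S z.1.2 * dl (z.1.1 + z.1.2 + z.2)) := by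
    rintro ⟨⟨a, b⟩, c⟩
    change (if a * b * c * (a + b + c) = 0 then wqS S a b c else 0) ≤
      u ^ 2 * (dl a * wS S b * wS S c) + u ^ 2 * (wS S a * dl b * wS S c) +
          u ^ 2 * (wS S a * wS S b * dl c) + u ^ 2 * (wS S a * wS S b * dl (a + b + c))
    have ea := h0 a
    have eb := h0 b
    have ec := h0 c
    have ed := h0 (-(a + b + c))
    have da := hd0 a
    have db := hd0 b
    have dc := hd0 c
    have dd := hd0 (a + b + c)
    have p1 : 0 ≤ u ^ 2 * (dl a * wS S b * wS S c) := by have := eb.1; have := ec.1; positivity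
    have p2 : 0 ≤ u ^ 2 * (wS S a * dl b * wS S c) := by have := ea.1; have := ec.1; positivity
    have p3 : 0 ≤ u ^ 2 * (wS S a * wS S b * dl c) := by have := ea.1; have := eb.1; positivity
    have p4 : 0 ≤ u ^ 2 * (wS S a * wS S b * dl (a + b + c)) := by have := ea.1; have := eb.1; positivity
    split_ifs with h
    · unfold wqS
      rcases mul_eq_zero.mp h with h' | h'
      · rcases mul_eq_zero.mp h' with h'' | h''
        · rcases mul_eq_zero.mp h'' with h3 | h3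
          · have e := SMS_four eb.1 ec.1 ea.1 ed.1 ea.2 ed.2
            have e' : dl a = 1 := by rw [h3]; exact hdz
            rw [e', one_mul] at p1
            rw [e', one_mul]
            nlinarith
          · have e := SMS_four ea.1 ec.1 eb.1 ed.1 eb.2 ed.2
            have e' : dl b = 1 := by rw [h3]; exact hdz
            rw [e', mul_one]
            nlinarith
        · have e := SMS_four ea.1 eb.1 ec.1 ed.1 ec.2 ed.2
          have e' : dl c = 1 := by rw [h'']; exact hdz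
          rw [e', mul_one]
          nlinarith
      · have e := SMS_four ea.1 eb.1 ec.1 ed.1 ec.2 ed.2
        have e' : dl (a + b + c) = 1 := by rw [h']; exact hdz
        rw [e', mul_one]
        nlinarith
    · linarith
  have hs1 : ∑ z : (ZMod p × ZMod p) × ZMod p, dl z.1.1 * wS S z.1.2 * wS S z.2 = 1 := by
    rw [SMS_prod dl (wS S) (wS S), hdl, h1]; norm_num
  have hs2 : ∑ z : (ZMod p × ZMod p) × ZMod p, wS S z.1.1 * dl z.1.2 * wS S z.2 = 1 := by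
    rw [SMS_prod (wS S) dl (wS S), hdl, h1]; norm_num
  have hs3 : ∑ z : (ZMod p × ZMod p) × ZMod p, wS S z.1.1 * wS S z.1.2 * dl z.2 = 1 := by
    rw [SMS_prod (wS S) (wS S) dl, hdl, h1]; norm_num
  have hs4 : ∑ z : (ZMod p × ZMod p) × ZMod p, wS S z.1.1 * wS S z.1.2 * dl (z.1.1 + z.1.2 + z.2) = 1 := by
    have e1 : ∑ z : (ZMod p × ZMod p) × ZMod p, wS S z.1.1 * wS S z.1.2 * dl (z.1.1 + z.1.2 + z.2) =
        ∑ x : ZMod p × ZMod p, ∑ c, wS S x.1 * wS S x.2 * dl (x.1 + x.2 + c) := Fintype.sum_prod_type _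
    have e2 : ∀ x : ZMod p × ZMod p, ∑ c, wS S x.1 * wS S x.2 * dl (x.1 + x.2 + c) = wS S x.1 * wS S x.2 := by
      intro x
      rw [← Finset.mul_sum]
      have e3 : ∑ c, dl (x.1 + x.2 + c) = 1 := by
        rw [← hdl]
        exact Fintype.sum_equiv (Equiv.addLeft (x.1 + x.2)) _ _ fun c => rfl
      rw [e3, mul_one]
    rw [e1]
    simp only [e2]
    have e4 : ∑ x : ZMod p × ZMod p, wS S x.1 * wS S x.2 = (∑ a : ZMod p, wS S a) * ∑ b : ZMod p, wS S b := by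
      rw [Finset.sum_mul_sum]
      exact Fintype.sum_prod_type _
    rw [e4, h1]
    norm_num
  calc _ ≤ ∑ z : (ZMod p × ZMod p) × ZMod p, (u ^ 2 * (dl z.1.1 * wS S z.1.2 * wS S z.2) +
        u ^ 2 * (wS S z.1.1 * dl z.1.2 * wS S z.2) +
          u ^ 2 * (wS S z.1.1 * wS S z.1.2 * dl z.2) + u ^ 2 * (wS S z.1.1 * wS S z.1.2 * dl (z.1.1 + z.1.2 + z.2))) :=
        Finset.sum_le_sum fun z _ => hpt z
    _ = 4 / (S.card : ℝ) ^ 2 := by
        rw [Finset.sum_add_distrib, Finset.sum_add_distrib, Finset.sum_add_distrib, ← Finset.mul_sum, ← Finset.mul_sum,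
          ← Finset.mul_sum, ← Finset.mul_sum, hs1, hs2, hs3, hs4, hu]
        ring

include hS h0 in
theorem SMS_exc (hp : p ≠ 2) (hEXC : EXC_stmt) {D : ℝ}
    (h4 : ((((univ.filter fun r : ZMod p => wS S r ≠ 0) ×ˢ (univ.filter fun r : ZMod p => wS S r ≠ 0)).image
      fun z : ZMod p × ZMod p => z.1 + z.2).card : ℝ) ≤ D * S.card) (a b c : ZMod p) :
    ∑ z : (ZMod p × ZMod p) × ZMod p,
      (if ∃ κ : ZMod p, κ ≠ 0 ∧ (z.1.2 + z.2) ^ 2 = κ * (b + c) ^ 2 ∧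
        4 * (z.1.1 * z.1.2) - 2 * ((z.1.1 + z.2) * (z.1.2 + z.2)) = κ * (4 * (a * b) - 2 * ((a + c) * (b + c))) ∧
        (z.1.1 + z.2) ^ 2 = κ * (a + c) ^ 2 then SMS_w S z else 0) ≤ 4 * D / (S.card : ℝ) ^ 3 := by
  have hTr : (0 : ℝ) < S.card := by exact_mod_cast hS.card_pos
  have hE := hEXC p hp (univ.filter fun r : ZMod p => wS S r ≠ 0) a b c
  set R : Finset (ZMod p) := univ.filter fun r : ZMod p => wS S r ≠ 0 with hR
  set Fx : Finset ((ZMod p × ZMod p) × ZMod p) := ((R ×ˢ R) ×ˢ R).filter fun z => ∃ κ : ZMod p, κ ≠ 0 ∧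
    (z.1.2 + z.2) ^ 2 = κ * (b + c) ^ 2 ∧
    4 * (z.1.1 * z.1.2) - 2 * ((z.1.1 + z.2) * (z.1.2 + z.2)) = κ * (4 * (a * b) - 2 * ((a + c) * (b + c))) ∧
    (z.1.1 + z.2) ^ 2 = κ * (a + c) ^ 2 with hF
  have hcard : (#Fx : ℝ) ≤ 4 * (D * S.card) := by
    have h5 : (#Fx : ℝ) ≤ 4 * (((R ×ˢ R).image fun z : ZMod p × ZMod p => z.1 + z.2).card : ℝ) := by
      exact_mod_cast hE
    linarith
  have hpt : ∀ z : (ZMod p × ZMod p) × ZMod p,
      (if ∃ κ : ZMod p, κ ≠ 0 ∧ (z.1.2 + z.2) ^ 2 = κ * (b + c) ^ 2 ∧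
        4 * (z.1.1 * z.1.2) - 2 * ((z.1.1 + z.2) * (z.1.2 + z.2)) = κ * (4 * (a * b) - 2 * ((a + c) * (b + c))) ∧
        (z.1.1 + z.2) ^ 2 = κ * (a + c) ^ 2 then SMS_w S z else 0) ≤ if z ∈ Fx then (1 / (S.card : ℝ)) ^ 4 else 0 := by
    intro z
    have ea := h0 z.1.1
    have eb := h0 z.1.2
    have ec := h0 z.2
    have ed := h0 (-(z.1.1 + z.1.2 + z.2))
    split_ifs with h5 h6 h6
    · unfold SMS_w wqS
      calc wS S z.1.1 * wS S z.1.2 * wS S z.2 * wS S (-(z.1.1 + z.1.2 + z.2)) ≤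
            (1 / (S.card : ℝ)) ^ 2 * (wS S z.1.1 * wS S z.1.2) := SMS_four ea.1 eb.1 ec.1 ed.1 ec.2 ed.2
        _ ≤ (1 / (S.card : ℝ)) ^ 2 * ((1 / (S.card : ℝ)) * (1 / (S.card : ℝ))) :=
            mul_le_mul_of_nonneg_left (mul_le_mul ea.2 eb.2 eb.1 (by positivity)) (by positivity)
        _ = (1 / (S.card : ℝ)) ^ 4 := by ring
    · have h7 : SMS_w S z = 0 := by
        by_contra hne
        apply h6
        unfold SMS_w wqS at hne
        have n1 : wS S z.1.1 ≠ 0 := fun h => hne (by rw [h]; ring)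
        have n2 : wS S z.1.2 ≠ 0 := fun h => hne (by rw [h]; ring)
        have n3 : wS S z.2 ≠ 0 := fun h => hne (by rw [h]; ring)
        rw [hF, Finset.mem_filter]
        refine ⟨?_, h5⟩
        rw [Finset.mem_product, Finset.mem_product]
        exact ⟨⟨Finset.mem_filter.mpr ⟨Finset.mem_univ _, n1⟩, Finset.mem_filter.mpr ⟨Finset.mem_univ _, n2⟩⟩,
          Finset.mem_filter.mpr ⟨Finset.mem_univ _, n3⟩⟩
      rw [h7]
    · positivity
    · exact le_refl _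
  calc _ ≤ ∑ z : (ZMod p × ZMod p) × ZMod p, (if z ∈ Fx then (1 / (S.card : ℝ)) ^ 4 else 0) :=
        Finset.sum_le_sum fun z _ => hpt z
    _ = #Fx * (1 / (S.card : ℝ)) ^ 4 := by
        rw [Finset.sum_ite_mem, Finset.univ_inter, Finset.sum_const, nsmul_eq_mul]
    _ ≤ 4 * (D * S.card) * (1 / (S.card : ℝ)) ^ 4 := mul_le_mul_of_nonneg_right hcard (by positivity)
    _ = 4 * D / (S.card : ℝ) ^ 3 := by
        field_simp

end SMS

/-- Row SMS. -/
theorem SMS (hWSS : WSS_stmt) (hEXC : EXC_stmt) (hINN : INN_stmt) : SMS_stmt := by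
  intro p _ S D hp hS hD hSD
  obtain ⟨-, h0, h1, hsub⟩ := hWSS p S hS
  have hTr : (0 : ℝ) < S.card := by exact_mod_cast hS.card_pos
  have h4 : ((((univ.filter fun r : ZMod p => wS S r ≠ 0) ×ˢ (univ.filter fun r : ZMod p => wS S r ≠ 0)).image
      fun z : ZMod p × ZMod p => z.1 + z.2).card : ℝ) ≤ D * S.card := by
    refine le_trans ?_ hSD
    have h5 : (((univ.filter fun r : ZMod p => wS S r ≠ 0) ×ˢ (univ.filter fun r : ZMod p => wS S r ≠ 0)).image
      fun z : ZMod p × ZMod p => z.1 + z.2) ⊆ (S - S) + (S - S) := by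
      intro x hx
      rw [Finset.mem_image] at hx
      obtain ⟨z, hz, rfl⟩ := hx
      rw [Finset.mem_product, Finset.mem_filter, Finset.mem_filter] at hz
      exact Finset.add_mem_add (hsub _ hz.1.2) (hsub _ hz.2.2)
    exact_mod_cast Finset.card_le_card h5
  have hpr : (0 : ℝ) < p := by exact_mod_cast (Fact.out : p.Prime).pos
  rw [SMS_sq]
  have hw := SMS_nonneg h0
  -- pointwise
  have hpt : ∀ z z' : (ZMod p × ZMod p) × ZMod p,
      SMS_w S z * SMS_w S z' * ∑ lam : ZMod p, SMS_x lam z * SMS_x lam z' ≤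
        4 * Real.sqrt p * (SMS_w S z * SMS_w S z') +
        p * ((if z.1.1 * z.1.2 * z.2 * (z.1.1 + z.1.2 + z.2) = 0 then SMS_w S z else 0) *
          (if z'.1.1 * z'.1.2 * z'.2 * (z'.1.1 + z'.1.2 + z'.2) = 0 then SMS_w S z' else 0)) +
        p * (SMS_w S z * (if ∃ κ : ZMod p, κ ≠ 0 ∧ (z'.1.2 + z'.2) ^ 2 = κ * (z.1.2 + z.2) ^ 2 ∧
        4 * (z'.1.1 * z'.1.2) - 2 * ((z'.1.1 + z'.2) * (z'.1.2 + z'.2)) =
          κ * (4 * (z.1.1 * z.1.2) - 2 * ((z.1.1 + z.2) * (z.1.2 + z.2))) ∧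
        (z'.1.1 + z'.2) ^ 2 = κ * (z.1.1 + z.2) ^ 2 then SMS_w S z' else 0)) := by
    intro z z'
    have hK := SMS_K z z'
    have hww : 0 ≤ SMS_w S z * SMS_w S z' := mul_nonneg (hw z) (hw z')
    have hA : 0 ≤ 4 * Real.sqrt p * (SMS_w S z * SMS_w S z') := by positivity
    have hB : 0 ≤ p * ((if z.1.1 * z.1.2 * z.2 * (z.1.1 + z.1.2 + z.2) = 0 then SMS_w S z else 0) *
          (if z'.1.1 * z'.1.2 * z'.2 * (z'.1.1 + z'.1.2 + z'.2) = 0 then SMS_w S z' else 0)) := by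
      refine mul_nonneg hpr.le (mul_nonneg ?_ ?_)
      · split_ifs
        · exact hw z
        · exact le_refl _
      · split_ifs
        · exact hw z'
        · exact le_refl _
    have hKw : SMS_w S z * SMS_w S z' * ∑ lam : ZMod p, SMS_x lam z * SMS_x lam z' ≤
        p * (SMS_w S z * SMS_w S z') := by
      calc _ ≤ SMS_w S z * SMS_w S z' * p := mul_le_mul_of_nonneg_left hK hww
        _ = _ := by ring
    by_cases hex : ∃ κ : ZMod p, κ ≠ 0 ∧ (z'.1.2 + z'.2) ^ 2 = κ * (z.1.2 + z.2) ^ 2 ∧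
        4 * (z'.1.1 * z'.1.2) - 2 * ((z'.1.1 + z'.2) * (z'.1.2 + z'.2)) =
          κ * (4 * (z.1.1 * z.1.2) - 2 * ((z.1.1 + z.2) * (z.1.2 + z.2))) ∧
        (z'.1.1 + z'.2) ^ 2 = κ * (z.1.1 + z.2) ^ 2
    · rw [if_pos hex]
      linarith
    · rw [if_neg hex, mul_zero, mul_zero, add_zero]
      by_cases hd : z.1.1 * z.1.2 * z.2 * (z.1.1 + z.1.2 + z.2) = 0 ∧
          z'.1.1 * z'.1.2 * z'.2 * (z'.1.1 + z'.1.2 + z'.2) = 0
      · rw [if_pos hd.1, if_pos hd.2]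
        linarith
      · have h5 := hINN p hp z.1.1 z.1.2 z.2 z'.1.1 z'.1.2 z'.2 hd hex
        have h6 : ∑ lam : ZMod p, SMS_x lam z * SMS_x lam z' ≤ 4 * Real.sqrt p := (le_abs_self _).trans h5
        have h7 := mul_le_mul_of_nonneg_left h6 hww
        linarith
  have hsum : ∑ z : (ZMod p × ZMod p) × ZMod p, ∑ z' : (ZMod p × ZMod p) × ZMod p,
      SMS_w S z * SMS_w S z' * ∑ lam : ZMod p, SMS_x lam z * SMS_x lam z' ≤
      4 * Real.sqrt p * (1 / (S.card : ℝ)) ^ 2 + p * (4 / (S.card : ℝ) ^ 2) ^ 2 + p * ((1 / (S.card : ℝ)) * (4 * D / (S.card : ℝ) ^ 3)) := by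
    refine (Finset.sum_le_sum fun z _ => Finset.sum_le_sum fun z' _ => hpt z z').trans ?_
    simp only [Finset.sum_add_distrib, ← Finset.mul_sum]
    have t1 : ∑ z : (ZMod p × ZMod p) × ZMod p, SMS_w S z * ∑ z' : (ZMod p × ZMod p) × ZMod p, SMS_w S z' ≤
        (1 / (S.card : ℝ)) ^ 2 := by
      rw [← Finset.sum_mul, sq]
      have e := SMS_total h0 h1
      have e' : 0 ≤ ∑ z : (ZMod p × ZMod p) × ZMod p, SMS_w S z := Finset.sum_nonneg fun z _ => hw z
      exact mul_le_mul e e e' (e'.trans e)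
    have t2 : ∑ z : (ZMod p × ZMod p) × ZMod p,
        (if z.1.1 * z.1.2 * z.2 * (z.1.1 + z.1.2 + z.2) = 0 then SMS_w S z else 0) *
        ∑ z' : (ZMod p × ZMod p) × ZMod p,
          (if z'.1.1 * z'.1.2 * z'.2 * (z'.1.1 + z'.1.2 + z'.2) = 0 then SMS_w S z' else 0) ≤
        (4 / (S.card : ℝ) ^ 2) ^ 2 := by
      rw [← Finset.sum_mul, sq (4 / (S.card : ℝ) ^ 2)]
      have e := SMS_deg h0 h1
      have e' : 0 ≤ ∑ z : (ZMod p × ZMod p) × ZMod p,
          (if z.1.1 * z.1.2 * z.2 * (z.1.1 + z.1.2 + z.2) = 0 then SMS_w S z else 0) := by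
        refine Finset.sum_nonneg fun z _ => ?_
        split_ifs
        · exact hw z
        · exact le_refl _
      exact mul_le_mul e e e' (e'.trans e)
    have t3 : ∑ z : (ZMod p × ZMod p) × ZMod p, SMS_w S z * ∑ z' : (ZMod p × ZMod p) × ZMod p,
        (if ∃ κ : ZMod p, κ ≠ 0 ∧ (z'.1.2 + z'.2) ^ 2 = κ * (z.1.2 + z.2) ^ 2 ∧
        4 * (z'.1.1 * z'.1.2) - 2 * ((z'.1.1 + z'.2) * (z'.1.2 + z'.2)) =
          κ * (4 * (z.1.1 * z.1.2) - 2 * ((z.1.1 + z.2) * (z.1.2 + z.2))) ∧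
        (z'.1.1 + z'.2) ^ 2 = κ * (z.1.1 + z.2) ^ 2 then SMS_w S z' else 0) ≤
        (1 / (S.card : ℝ)) * (4 * D / (S.card : ℝ) ^ 3) := by
      calc _ ≤ ∑ z : (ZMod p × ZMod p) × ZMod p, SMS_w S z * (4 * D / (S.card : ℝ) ^ 3) :=
            Finset.sum_le_sum fun z _ => mul_le_mul_of_nonneg_left
              (SMS_exc hS h0 hp hEXC h4 z.1.1 z.1.2 z.2) (hw z)
        _ = (∑ z : (ZMod p × ZMod p) × ZMod p, SMS_w S z) * (4 * D / (S.card : ℝ) ^ 3) := (Finset.sum_mul _ _ _).symm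
        _ ≤ (1 / (S.card : ℝ)) * (4 * D / (S.card : ℝ) ^ 3) :=
            mul_le_mul_of_nonneg_right (SMS_total h0 h1) (by positivity)
    have s1 := mul_le_mul_of_nonneg_left t1 (show 0 ≤ 4 * Real.sqrt p by positivity)
    have s2 := mul_le_mul_of_nonneg_left t2 hpr.le
    have s3 := mul_le_mul_of_nonneg_left t3 hpr.le
    linarith
  refine (mul_le_mul_of_nonneg_left hsum (by positivity)).trans (le_of_eq ?_)
  field_simp
  ring

end Pool.Agent.OG
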