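import Pool.Agent.helper64.OT.SpecF

set_option autoImplicit false

namespace Pool.Agent.OT

open Finset

theorem COC_card {p : ℕ} [Fact p.Prime] (N : ℕ) (X : Finset (ZMod p)) (h : ∀ x ∈ X, x.val < N) :
    X.card ≤ N := by
  have h1 : X.card ≤ (range N).card := by
    apply Finset.card_le_card_of_injOn (fun x : ZMod p => x.val)
    · intro x hx
      simp only [coe_range, Set.mem_Iio]
      exact h x hx
    · intro x _ y _ hxy
      exact ZMod.val_injective p hxy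
  simpa using h1

theorem COC_main (hMED : MED_stmt) (hP3 : P3_stmt) (e : ℝ) (he : 0 < e) (he1 : e ≤ 1) :
    ∃ (c : ℝ) (p₀ : ℕ), 0 < c ∧ ∀ (p : ℕ) [Fact p.Prime], p₀ < p →
    ∀ (χ : MulChar (ZMod p) ℂ) (N : ℕ) (X B : Finset (ZMod p)) (β : ZMod p → ℂ), χ ≠ 1 → (∀ b, ‖β b‖ ≤ 1) →
    0 < N → (N : ℝ) ≤ (p : ℝ) ^ (1 - e) → (∀ x ∈ X, x.val < N) →
    ((B.card : ℝ) ≤ (p : ℝ) ^ (1 - e) ∨ (p : ℝ) ^ e ≤ X.card) →
    ((N : ℝ) + (p : ℝ) ^ (3 / 4 : ℝ)) * (EN N B : ℝ) ≤ (p : ℝ) ^ (-e) * (B.card : ℝ) ^ 4 →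
      ∑ x ∈ X, ‖FB χ B β x‖ ≤ (p : ℝ) ^ (-c) * (Real.sqrt (p * (X.card * B.card)) + X.card * B.card) := by
  obtain ⟨c, p₀, hc, hM⟩ := hMED e (e / 4) he (by linarith)
  obtain ⟨p₁, hp₁⟩ := exists_nat_ge ((16 : ℝ) ^ (1 / e))
  refine ⟨c, max p₀ (max p₁ 2), hc, ?_⟩
  intro p hpF hp χ N X B β hχ hβ hN hNp hX hBX hE
  have hpp₀ : p₀ < p := lt_of_le_of_lt (le_max_left _ _) hp
  have hpp₁ : p₁ < p := lt_of_le_of_lt ((le_max_left _ _).trans (le_max_right _ _)) hp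
  have hp2 : 2 < p := lt_of_le_of_lt ((le_max_right _ _).trans (le_max_right _ _)) hp
  have hpR : (1 : ℝ) ≤ (p : ℝ) := by exact_mod_cast (by omega : 1 ≤ p)
  have hp0 : (0 : ℝ) < (p : ℝ) := by linarith
  -- `16 ≤ p ^ e`
  have h16 : (16 : ℝ) ≤ (p : ℝ) ^ e := by
    have h1 : (16 : ℝ) ^ (1 / e) ≤ (p : ℝ) := hp₁.trans (by exact_mod_cast hpp₁.le)
    have h2 : ((16 : ℝ) ^ (1 / e)) ^ e ≤ (p : ℝ) ^ e :=
      Real.rpow_le_rpow (by positivity) h1 he.le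
    have h3 : ((16 : ℝ) ^ (1 / e)) ^ e = 16 := by
      rw [← Real.rpow_mul (by norm_num), one_div, inv_mul_cancel₀ he.ne', Real.rpow_one]
    linarith
  have h16N : 16 * N ≤ p := by
    have h1 : (16 : ℝ) * N ≤ (p : ℝ) := by
      calc (16 : ℝ) * N ≤ (p : ℝ) ^ e * (p : ℝ) ^ (1 - e) := by
            apply mul_le_mul h16 hNp (by positivity) (by positivity)
        _ = (p : ℝ) := by
            rw [← Real.rpow_add hp0]
            have : e + (1 - e) = 1 := by ring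
            rw [this, Real.rpow_one]
    exact_mod_cast h1
  have hXN : (X.card : ℝ) ≤ (p : ℝ) ^ (1 - e) := by
    have h1 : (X.card : ℝ) ≤ (N : ℝ) := by exact_mod_cast COC_card N X hX
    exact h1.trans hNp
  apply hM p hpp₀ χ N X B β hχ hβ hX hXN hBX
  intro hB1 _
  have hP := hP3 p χ N B β hχ (by omega) hN h16N hβ
  have hb0 : (0 : ℝ) ≤ (B.card : ℝ) := by positivity
  set b : ℝ := (B.card : ℝ) with hb
  set P : ℝ := (p : ℝ) ^ (1 / 2 - e / 4) with hPdef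
  have hP0 : 0 < P := by positivity
  -- first term
  have hN1 : (N : ℝ) ≤ P * b := by
    calc (N : ℝ) ≤ (p : ℝ) ^ (1 - e) := hNp
      _ ≤ (p : ℝ) ^ ((1 / 2 - e / 4) + (1 / 2 - e / 4 / 8)) := by
          apply Real.rpow_le_rpow_of_exponent_le hpR
          linarith
      _ = P * (p : ℝ) ^ (1 / 2 - e / 4 / 8) := by
          rw [Real.rpow_add hp0]
      _ ≤ P * b := by
          apply mul_le_mul_of_nonneg_left hB1 hP0.le
  -- second term
  have hE2 : (EN N B : ℝ) * ((N : ℝ) * (p : ℝ) ^ 2 + (p : ℝ) ^ (11 / 4 : ℝ)) ≤ (P * b) ^ 4 := by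
    have h1 : (p : ℝ) ^ (11 / 4 : ℝ) = (p : ℝ) ^ 2 * (p : ℝ) ^ (3 / 4 : ℝ) := by
      have : (p : ℝ) ^ 2 = (p : ℝ) ^ (2 : ℝ) := by
        rw [← Real.rpow_natCast]
        norm_num
      rw [this, ← Real.rpow_add hp0]
      norm_num
    have h2 : P ^ 4 = (p : ℝ) ^ 2 * (p : ℝ) ^ (-e) := by
      have : (p : ℝ) ^ 2 = (p : ℝ) ^ (2 : ℝ) := by
        rw [← Real.rpow_natCast]
        norm_num
      rw [this, ← Real.rpow_add hp0, hPdef, ← Real.rpow_natCast, ← Real.rpow_mul hp0.le]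
      apply congrArg
      push_cast
      ring
    calc (EN N B : ℝ) * ((N : ℝ) * (p : ℝ) ^ 2 + (p : ℝ) ^ (11 / 4 : ℝ))
        = (p : ℝ) ^ 2 * (((N : ℝ) + (p : ℝ) ^ (3 / 4 : ℝ)) * (EN N B : ℝ)) := by
          rw [h1]
          ring
      _ ≤ (p : ℝ) ^ 2 * ((p : ℝ) ^ (-e) * b ^ 4) := by
          apply mul_le_mul_of_nonneg_left hE (by positivity)
      _ = (P * b) ^ 4 := by
          rw [mul_pow, h2]
          ring
  have hE3 : ((EN N B : ℝ) * ((N : ℝ) * (p : ℝ) ^ 2 + (p : ℝ) ^ (11 / 4 : ℝ))) ^ (1 / 4 : ℝ) ≤ P * b := by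
    calc ((EN N B : ℝ) * ((N : ℝ) * (p : ℝ) ^ 2 + (p : ℝ) ^ (11 / 4 : ℝ))) ^ (1 / 4 : ℝ)
        ≤ ((P * b) ^ 4) ^ (1 / 4 : ℝ) := by
          apply Real.rpow_le_rpow (by positivity) hE2 (by norm_num)
      _ = P * b := by
          rw [← Real.rpow_natCast, ← Real.rpow_mul (by positivity)]
          norm_num
  calc ∑ n ∈ range N, ‖FB χ B β (n : ZMod p)‖ ^ 2
      ≤ 100 * ((N : ℝ) * b + b *
        ((EN N B : ℝ) * ((N : ℝ) * (p : ℝ) ^ 2 + (p : ℝ) ^ (11 / 4 : ℝ))) ^ (1 / 4 : ℝ)) := hP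
    _ ≤ 100 * ((P * b) * b + b * (P * b)) := by
        apply mul_le_mul_of_nonneg_left _ (by norm_num)
        apply add_le_add
        · exact mul_le_mul_of_nonneg_right hN1 hb0
        · exact mul_le_mul_of_nonneg_left hE3 hb0
    _ = 200 * P * b ^ 2 := by ring
    _ ≤ 10 ^ 6 * P * b ^ 2 := by
        apply mul_le_mul_of_nonneg_right _ (by positivity)
        apply mul_le_mul_of_nonneg_right _ hP0.le
        norm_num

theorem COC (hMED : MED_stmt) (hP3 : P3_stmt) : COC_stmt := by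
  intro ε hε
  obtain ⟨c, p₀, hc, hM⟩ := COC_main hMED hP3 (min ε 1) (lt_min hε one_pos) (min_le_right _ _)
  refine ⟨c, p₀, hc, ?_⟩
  intro p hpF hp χ N X B β hχ hβ hN hNp hX hBX hE
  have hpR : (1 : ℝ) ≤ (p : ℝ) := by exact_mod_cast hpF.out.one_lt.le
  have hmin : min ε 1 ≤ ε := min_le_left _ _
  apply hM p hp χ N X B β hχ hβ hN
  · exact hNp.trans (Real.rpow_le_rpow_of_exponent_le hpR (by linarith))
  · exact hX
  · rcases hBX with h | h
    · left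
      exact h.trans (Real.rpow_le_rpow_of_exponent_le hpR (by linarith))
    · right
      exact (Real.rpow_le_rpow_of_exponent_le hpR hmin).trans h
  · refine hE.trans ?_
    apply mul_le_mul_of_nonneg_right _ (by positivity)
    exact Real.rpow_le_rpow_of_exponent_le hpR (by linarith)

end Pool.Agent.OT
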